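import Pool.Agent.U837.CC.One
import Pool.Agent.U837.CC.Cr
import Pool.Agent.N625.PT.K
import Pool.Agent.R501.LP1

/-!
# Least primes in almost all classes, for all the multiples of all the integers near concatenated polynomial values

The moduli are `d = h q`, where `1 ≤ h ≤ k ^ J` and `q` is any integer within `k ^ W` of the integer whose digits in some
base `b ≤ k ^ W` are those of `f_1(n)`, `f_2(n)`, ..., `f_r(n)` written one after the other, where `f_1, ..., f_r` are ANY
integer polynomials of distinct degrees between `1` and `D` with coefficients of absolute value at most `k ^ W`. For almost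
all `n` the statement holds simultaneously for all these bases, polynomials, `q` and `h`. For example (base ten): for almost
all `n`, all the multiples of all the integers near the integer with the digits of `n`, `n ^ 2` and `n ^ 3` one after the
other. For given bases and polynomials these are thin sets: `x` integers of the size `x ^ (deg f_1 + ... + deg f_r)`.

Method: the large spectrum of the multiples of random concatenations is small (`Pool.Agent.U837.CC.cc_tcls`, from an inverse
theorem for Weyl sums with all the coefficients) and the number of the possible digit lengths, bases and polynomials is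
only a power of `k` (`Pool.Agent.U837.CC.vec_one`); both are by helper837. The passage from such a description of the large
frequencies to the variance of the primes in the classes, and from this to the least primes, is from the starting files
(`Pool.Agent.N625.PT.t_var`, `Pool.Agent.R501.LP`).
-/

set_option autoImplicit false

namespace Pool.Agent.Results.MP_42948a_nt.ConcatenatedModuli

open Finset Polynomial

open Classical in
/-- The number of the reduced residue classes `a` modulo `d` whose least prime exceeds `x`. -/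
noncomputable def lateClasses (x : ℝ) (d : ℕ) : ℕ :=
  ((range d).filter (fun a => Nat.Coprime a d ∧ ∀ p : ℕ, p.Prime → (p : ℝ) ≤ x → ¬ p % d = a)).card

/-- For all real `x` with `d ≤ x ≤ d log ^ T d` the number of the reduced residue classes modulo `d` whose least prime exceeds
`x` is at most `(1 + ε) φ(d) / (1 + lam)`, where `x = lam φ(d) log d`. -/
def Good (ε : ℝ) (T d : ℕ) : Prop :=
  ∀ x : ℝ, (d : ℝ) ≤ x → x ≤ d * Real.log d ^ T →
    (lateClasses x d : ℝ) * (1 + x / ((Nat.totient d : ℝ) * Real.log d)) ≤ (1 + ε) * (Nat.totient d : ℝ)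

/-- The number whose digits in base `b`, read from the left to the right, are those of `f(n)`, `f ∈ F`, written one after
the other. -/
noncomputable def concat (b : ℕ) (F : List ℤ[X]) (n : ℕ) : ℕ :=
  Nat.ofDigits b ((F.reverse.map (fun f => Nat.digits b (f.eval (n : ℤ)).toNat)).flatten)

/-- The base `b` satisfies `2 ≤ b ≤ r`; the list `F` is not empty, and the members of `F` have distinct degrees between `1`
and `D`, coefficients of absolute value at most `r`, and nonnegative values at `n`. -/
def Small (D : ℕ) (r : ℝ) (n b : ℕ) (F : List ℤ[X]) : Prop :=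
  (2 ≤ b ∧ (b : ℝ) ≤ r) ∧ F ≠ [] ∧ (F.map natDegree).Nodup ∧
    ∀ f ∈ F, 1 ≤ f.natDegree ∧ f.natDegree ≤ D ∧ (∀ i, |((f.coeff i : ℤ) : ℝ)| ≤ r) ∧ 0 ≤ f.eval (n : ℤ)

/-- `2 ^ k / k ^ W ≤ a ≤ 2 ^ k`. -/
def Scale (W k a : ℕ) : Prop := (2 : ℝ) ^ k ≤ (k : ℝ) ^ W * a ∧ a ≤ 2 ^ k

open Classical in
/-- The number of the `n`, `1 ≤ n ≤ x`, for which there are a base `b` and a list `F` of polynomials with
`Small D (k ^ W) n b F` such that the integer `a = concat b F n` is between `2 ^ k / k ^ W` and `2 ^ k` and the following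
fails: ALL the integers `q ≥ 1` with `|q - a| ≤ k ^ W` and ALL the factors `1 ≤ h ≤ k ^ J` satisfy `Good ε T (h q)`. -/
noncomputable def exceptions (D : ℕ) (ε : ℝ) (J W T k x : ℕ) : ℕ :=
  ((Icc 1 x).filter (fun n => ∃ (b : ℕ) (F : List ℤ[X]), Small D ((k : ℝ) ^ W) n b F ∧ Scale W k (concat b F n) ∧
    ¬ ∀ q : ℕ, 1 ≤ q → |(q : ℤ) - concat b F n| ≤ (k : ℤ) ^ W → ∀ h : ℕ, 1 ≤ h → h ≤ k ^ J → Good ε T (h * q))).card

lemma cond_of {D W k n b : ℕ} {F : List ℤ[X]} (h1 : Small D ((k : ℝ) ^ W) n b F) (h2 : Scale W k (concat b F n)) :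
    Pool.Agent.U837.CC.Cond D W k n b F.reverse := by
  obtain ⟨⟨a1, a2⟩, a3, a4, a5⟩ := h1
  exact ⟨a1, a2, Pool.Agent.U837.CC.adm_rev ⟨a3, a4, a5⟩, h2.1, h2.2⟩

lemma good_of (ε : ℝ) (hε : 0 < ε) (hε1 : ε ≤ 1) (T : ℕ) : ∃ Q₀ : ℕ, ∀ Q : ℕ, Q₀ ≤ Q → (∀ x : ℝ, (Q : ℝ) ≤ x → x ≤ Q * Real.log Q ^ T →
    |Pool.Agent.TH894.PV.G x Q - x * Real.log Q| ≤ ε / 4 * (x * Real.log Q)) → Good ε T Q := by
  obtain ⟨Q₀, h⟩ := Pool.Agent.R501.LP.lpg_of_var T ε hε hε1
  refine ⟨Q₀ + 2, fun Q hQ hvar x hx1 hx2 => ?_⟩
  exact ((Pool.Agent.R501.LP.lpg_iff ε T Q (by omega)).1 (h Q (by omega) hvar) x hx1 hx2).1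

/-- **The least primes in almost all classes, for all the multiples of all the integers near concatenated polynomial values.**
Let `D`, `W`, `U`, `J`, `T` and `0 < ε ≤ 1` be fixed and let `k` be large. For every `x` the following holds for all but at
most `x / k ^ U` of the `n`, `1 ≤ n ≤ x`: for ALL the bases `b ≤ k ^ W` and ALL the lists `F` of integer polynomials of
distinct degrees between `1` and `D` with coefficients of absolute value at most `k ^ W` and nonnegative values at `n`, for
which the integer `a` whose digits in base `b` are those of `f(n)`, `f ∈ F`, written one after the other is between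
`2 ^ k / k ^ W` and `2 ^ k`; for ALL the integers `q ≥ 1` at a distance of at most `k ^ W` from `a` and ALL the factors
`1 ≤ h ≤ k ^ J`: for all real `x = lam φ(d) log d` with `d ≤ x ≤ d log ^ T d`, where `d = h q`, all but at most
`(1 + ε) φ(d) / (1 + lam)` of the reduced residue classes modulo `d` contain a prime `≤ x`. -/
theorem result (D W U J T : ℕ) (ε : ℝ) (hε : 0 < ε) (hε1 : ε ≤ 1) : ∃ k₀ : ℕ, ∀ k : ℕ, k₀ ≤ k → ∀ x : ℕ,
    (exceptions D ε J W T k x : ℝ) ≤ (x : ℝ) / (k : ℝ) ^ U := by
  classical
  obtain ⟨Q₀, h0⟩ := good_of ε hε hε1 T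
  obtain ⟨V, B₁, U', k₁, hvec⟩ := Pool.Agent.U837.CC.vec_one D W U
  obtain ⟨k₂, hmain⟩ := Pool.Agent.N625.PT.t_var (Pool.Agent.U837.CC.cc_tcls D V 1 one_ne_zero) 1 J W T U' (ε / 4)
    (by positivity) (by linarith) (Good ε T) Q₀ h0
  refine ⟨k₁ + k₂ + B₁ + 3, fun k hk x => ?_⟩
  have hkk := Pool.Agent.U837.CC.kk_le B₁ k
  unfold exceptions
  refine hvec k (by omega) (fun y => ∀ q : ℕ, 1 ≤ q → |(q : ℤ) - y| ≤ ((Pool.Agent.U837.CC.kk B₁ k : ℕ) : ℤ) ^ W →
    ∀ h : ℕ, 1 ≤ h → h ≤ (Pool.Agent.U837.CC.kk B₁ k) ^ J → Good ε T (h * q)) ?_ x _ (filter_subset _ _) ?_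
  · intro p hp c hc
    have h1 := hmain (Pool.Agent.U837.CC.kk B₁ k) (by omega) p hp c (by
      push_cast
      linarith)
    simp only [one_mul] at h1
    refine h1.trans ?_
    apply one_div_le_one_div_of_le
    · have : (0 : ℝ) < k := by exact_mod_cast (by omega : 0 < k)
      positivity
    · apply pow_le_pow_left₀ (Nat.cast_nonneg k)
      exact_mod_cast hkk
  · intro n hn
    rw [mem_filter] at hn
    obtain ⟨_, b, F, h1, h2, h3⟩ := hn
    refine ⟨b, F.reverse, cond_of h1 h2, fun hc => h3 ?_⟩
    intro q hq1 hq2 h hh1 hh2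
    refine hc q hq1 (le_trans hq2 ?_) h hh1 (hh2.trans (Nat.pow_le_pow_left hkk J))
    apply pow_le_pow_left₀ (by positivity)
    exact_mod_cast hkk

end Pool.Agent.Results.MP_42948a_nt.ConcatenatedModuli
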