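import Mathlib
import Pool.Agent.U98.TZ.F7

set_option autoImplicit false

/-!
# The rough numbers in a fixed class `a` modulo the primes `p`

Call an integer rough at the level `w` if it has no prime factors `≤ w`. For a fixed `a ≥ 1` and a prime `p` consider the
elements `k p + a`, `k ≥ 1`, of the progression of Chowla's conjecture. The theorem says that over the primes
`p ∈ (u, u + Y] ⊆ [δ X, X]` the rough ones among them are asymptotically a Poisson process: for all unions of blocks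
`i D < k ≤ (i + 1) D`, `i ∈ I`, with `2 a ∣ D`, the number of the `k` with `k p + a` rough has in total variation
asymptotically the Poisson law with the mean `|I| D M(w)`, `M(w) = ∏ (1 - 1 / q)`, `q ≤ w`, for all levels
`w ≤ X ^ (1 / r)`. The law does not depend on `a`.

Proof idea. For the primes `q` which do not divide `2 a` the map `n ↦ a / n` modulo `q` turns the conditions
`q ∣ k n + a` into the conditions `q ∣ n + k`; for the other primes the condition depends on `k` only. So the moments are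
averages of singular series over sets of `k` in the classes modulo `2 a` for which `k n + a` is prime to `2 a`.
-/

namespace Pool.Agent.Results.MP_42948a_nt.FixedClassPoisson

open Finset

/-- `m` has no prime factors `q ≤ w` -/
def Rough (w m : ℕ) : Prop := ∀ q : ℕ, q.Prime → q ≤ w → ¬ q ∣ m

/-- the product of `1 - 1 / q` over the primes `q ≤ w` -/
noncomputable def M (w : ℕ) : ℝ := ∏ q ∈ (Icc 1 w).filter Nat.Prime, (1 - 1 / (q : ℝ))

/-- the number of the `k` in the union of the blocks `(i D, (i + 1) D]`, `i ∈ I`, for which `k p + a` is rough -/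
noncomputable def inBlocks (w a p D : ℕ) (I : Finset ℕ) : ℕ :=
  Set.ncard {k : ℕ | (∃ i ∈ I, i * D < k ∧ k ≤ (i + 1) * D) ∧ Rough w (k * p + a)}

/-- the number of the primes `p ∈ (u, u + Y]` for which this number is in `A` -/
noncomputable def primeCount (w a D : ℕ) (I A : Finset ℕ) (u Y : ℕ) : ℕ :=
  Set.ncard {p : ℕ | p.Prime ∧ u < p ∧ p ≤ u + Y ∧ inBlocks w a p D I ∈ A}

open Pool.Agent.U98.TZ Pool.Agent.H373R2.T7 Pool.Agent.TH464.PO Pool.Agent.R463.EX Pool.Agent.R463.PP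
open Pool.Agent.Y879.PR Pool.Agent.W123.RP Pool.Agent.W123.RU

lemma M_eq (w : ℕ) : M w = Vz w := rfl

lemma good_iff (a s : ℕ) (_ha : 1 ≤ a) : Good a s ↔ Nat.Coprime (2 * a) (s + a) := by
  unfold Good
  rw [Nat.coprime_mul_iff_left, Nat.coprime_add_self_right]
  constructor
  · rintro ⟨h1, h2⟩
    refine ⟨?_, h1.symm⟩
    rw [Nat.coprime_two_left]
    exact Nat.odd_iff.2 h2
  · rintro ⟨h1, h2⟩
    rw [Nat.coprime_two_left] at h1
    exact ⟨h2.symm, Nat.odd_iff.1 h1⟩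

open Classical in
/-- the good classes -/
noncomputable def BG (a : ℕ) : Finset ℕ := (Icc 1 (2 * a)).filter (fun s => Good a s)

lemma BG_sub (a : ℕ) : BG a ⊆ Icc 1 (2 * a) := by
  classical
  unfold BG
  exact Finset.filter_subset _ _

lemma card_BG_le (a : ℕ) : (BG a).card ≤ 2 * a := by
  have := card_le_card (BG_sub a)
  rwa [Nat.card_Icc, Nat.add_sub_cancel] at this

lemma card_BG (a : ℕ) (ha : 1 ≤ a) : (BG a).card = Nat.totient (2 * a) := by
  classical
  rw [← Nat.filter_coprime_Ico_eq_totient (2 * a) (1 + a)]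
  unfold BG
  refine Finset.card_bij (fun s _ => s + a) ?_ ?_ ?_
  · intro s hs
    rw [mem_filter, mem_Icc, good_iff a s ha] at hs
    rw [mem_filter, mem_Ico]
    exact ⟨by omega, hs.2⟩
  · intro s _ s' _ h
    omega
  · intro b hb
    rw [mem_filter, mem_Ico] at hb
    refine ⟨b - a, ?_, by omega⟩
    rw [mem_filter, mem_Icc, good_iff a _ ha]
    refine ⟨by omega, ?_⟩
    rw [show b - a + a = b by omega]
    exact hb.2

lemma cA_eq (a w : ℕ) (ha : 1 ≤ a) (hw : 2 * a ≤ w) : ((Nat.totient (2 * a) : ℕ) : ℝ) = 2 * a * cA a w := by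
  have h1 := Nat.totient_eq_mul_prod_factors (2 * a)
  have h2 : ((Nat.totient (2 * a) : ℕ) : ℝ) = ((2 * a : ℕ) : ℝ) * ∏ p ∈ (2 * a).primeFactors, (1 - (p : ℝ)⁻¹) := by
    have h3 := congrArg (fun q : ℚ => (q : ℝ)) h1
    push_cast at h3
    rw [h3]
    push_cast
    rfl
  have h4 : cA a w = ∏ p ∈ (2 * a).primeFactors, (1 - (p : ℝ)⁻¹) := by
    unfold cA
    rw [← Finset.prod_filter]
    have h5 : (pz w).filter (fun p => p ∣ 2 * a) = (2 * a).primeFactors := by
      ext p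
      rw [mem_filter, Nat.mem_primeFactors]
      constructor
      · rintro ⟨h6, h7⟩
        exact ⟨(mem_pz.1 h6).2, h7, by omega⟩
      · rintro ⟨h6, h7, _⟩
        have := Nat.le_of_dvd (by omega) h7
        exact ⟨mem_pz.2 ⟨by omega, h6⟩, h7⟩
    rw [h5]
    apply prod_congr rfl
    intro p _
    rw [one_div]
  rw [h2, h4]
  push_cast
  ring

lemma mem_WS (a d : ℕ) (ha : 1 ≤ a) (I : Finset ℕ) (k : ℕ) :
    k ∈ WS (2 * a) d (I ×ˢ BG a) ↔ (∃ i ∈ I, i * (2 * a * d) < k ∧ k ≤ (i + 1) * (2 * a * d)) ∧ Good a k := by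
  classical
  have hper : ∀ s t : ℕ, Good a (s + 2 * a * t) ↔ Good a s := by
    intro s t
    rw [good_iff a _ ha, good_iff a _ ha]
    rw [show s + 2 * a * t + a = s + a + 2 * a * t by ring, Nat.coprime_add_mul_left_right]
  unfold WS
  rw [mem_biUnion]
  constructor
  · rintro ⟨c, hc, hk⟩
    rw [mem_product] at hc
    have h1 := hc.2
    unfold BG at h1
    rw [mem_filter] at h1
    have h2 := cell_bounds (2 * a) d c h1.1 k hk
    refine ⟨⟨c.1, hc.1, by omega, by omega⟩, ?_⟩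
    rw [mem_cell] at hk
    obtain ⟨j, _, hj⟩ := hk
    have h3 : k = c.2 + 2 * a * (c.1 * d + j) := by
      rw [← hj]
      ring
    rw [h3, hper]
    exact h1.2
  · rintro ⟨⟨i, hi, h1, h2⟩, hg⟩
    obtain ⟨s, hs, h3, h4⟩ := cell_of_slot (2 * a) d i k (by omega) h1 h2
    refine ⟨(i, s), ?_, h3⟩
    rw [mem_product]
    refine ⟨hi, ?_⟩
    unfold BG
    rw [mem_filter]
    refine ⟨hs, ?_⟩
    rw [mem_cell] at h3
    obtain ⟨j, _, hj⟩ := h3
    have h5 : k = s + 2 * a * (i * d + j) := by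
      rw [← hj]
      simp only
      ring
    rw [h5, hper] at hg
    exact hg

lemma card_WS (a d w : ℕ) (ha : 1 ≤ a) (hw : 2 * a ≤ w) (I : Finset ℕ) :
    ((WS (2 * a) d (I ×ˢ BG a)).card : ℝ) * Vq (Qa a) w = I.card * ((2 * a * d : ℕ) : ℝ) * M w := by
  classical
  rw [WS_card (2 * a) d (by omega) (I ×ˢ BG a) (by
    intro c hc
    rw [mem_product] at hc
    have h1 := hc.2
    unfold BG at h1
    exact (mem_filter.1 h1).1), card_product, card_BG a ha, M_eq, Vz_cA a w, Vq_QH_zero]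
  push_cast
  rw [cA_eq a w ha hw]
  ring

/-- the rough numbers are in the good classes -/
lemma rough_good (w a k p : ℕ) (ha : 1 ≤ a) (hw : a + 2 ≤ w) (hp : p.Prime) (hp2 : w < p)
    (h : Rough w (k * p + a)) : Good a k := by
  refine ⟨?_, ?_⟩
  · by_contra hcon
    obtain ⟨q, hq, h1, h2⟩ := Nat.Prime.not_coprime_iff_dvd.1 hcon
    have h3 := Nat.le_of_dvd (by omega) h2
    exact h q hq (by omega) ((Nat.dvd_add_left h2).2 (Dvd.dvd.mul_right h1 p))
  · have h1 : ¬ 2 ∣ k * p + a := h 2 Nat.prime_two (by omega)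
    have h2 : p % 2 = 1 := by
      rcases hp.eq_two_or_odd with h3 | h3
      · omega
      · exact h3
    have h4 : (k * p) % 2 = k % 2 := by
      rw [Nat.mul_mod, h2, mul_one, Nat.mod_mod]
    omega

lemma om_iff (w u Y : ℕ) (hw : w ≤ u) (n : ℕ) :
    n ∈ Om 1 0 Qi w u Y ↔ n.Prime ∧ u < n ∧ n ≤ u + Y := by
  classical
  unfold Om
  rw [mem_filter, mem_Ioc, one_mul, add_zero]
  constructor
  · rintro ⟨⟨h1, h2⟩, h3, _⟩
    exact ⟨h3, h1, h2⟩
  · rintro ⟨h3, h1, h2⟩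
    refine ⟨⟨h1, h2⟩, h3, ?_⟩
    intro q hq hd
    have h4 := (Nat.prime_dvd_prime_iff_eq (mem_pz.1 hq).2 h3).1 hd
    have := (mem_pz.1 hq).1
    omega

lemma sf_iff' (w m : ℕ) : Sf Qi w m ↔ Rough w m := by
  unfold Sf Rough Qi
  constructor
  · intro h2 p hp hpw
    exact h2 p (mem_pz.2 ⟨hpw, hp⟩)
  · intro h2 p hp
    exact h2 p (mem_pz.1 hp).2 (mem_pz.1 hp).1

open Classical in
lemma count_eq (w a d : ℕ) (ha : 1 ≤ a) (hwa : a + 2 ≤ w) (I A : Finset ℕ) (u Y : ℕ) (hw : w ≤ u) :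
    primeCount w a (2 * a * d) I A u Y =
      ((Om 1 0 Qi w u Y).filter (fun n => NMa a w (WS (2 * a) d (I ×ˢ BG a)) n ∈ A)).card := by
  have h1 : ∀ n : ℕ, n.Prime → u < n → inBlocks w a n (2 * a * d) I = NMa a w (WS (2 * a) d (I ×ˢ BG a)) n := by
    intro n hn hun
    unfold inBlocks NMa
    rw [← Set.ncard_coe_finset]
    congr 1
    ext k
    rw [Set.mem_ofPred_eq, Finset.mem_coe, mem_filter, mem_WS a d ha I k, sf_iff']
    constructor
    · rintro ⟨h2, h3⟩
      exact ⟨⟨h2, rough_good w a k n ha hwa hn (by omega) h3⟩, h3⟩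
    · rintro ⟨⟨h2, _⟩, h3⟩
      exact ⟨h2, h3⟩
  unfold primeCount
  rw [← Set.ncard_coe_finset]
  congr 1
  ext n
  rw [Set.mem_ofPred_eq, Finset.mem_coe, mem_filter, om_iff w u Y hw]
  constructor
  · rintro ⟨h2, h3, h4, h5⟩
    refine ⟨⟨h2, h3, h4⟩, ?_⟩
    rw [← h1 n h2 h3]
    exact h5
  · rintro ⟨⟨h2, h3, h4⟩, h5⟩
    refine ⟨h2, h3, h4, ?_⟩
    rw [h1 n h2 h3]
    exact h5

/-- the level is below the window -/
lemma level_le (δ : ℝ) (hδ : 0 < δ) (r w X u y4 : ℕ) (h4 : 1 / δ ≤ y4) (hw : y4 ≤ w) (hw1 : 1 ≤ w)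
    (hX : w ^ (r + 2) ≤ X) (hu : δ * X ≤ u) : w ≤ u := by
  have h1 : 1 / δ ≤ w := h4.trans (by exact_mod_cast hw)
  rw [div_le_iff₀ hδ] at h1
  have h2 : (w : ℝ) ^ (r + 2) ≤ X := by exact_mod_cast hX
  have hwr : (1 : ℝ) ≤ w := by exact_mod_cast hw1
  have h3 : (w : ℝ) ^ 2 ≤ (w : ℝ) ^ (r + 2) := pow_le_pow_right₀ hwr (by omega)
  have h5 : (w : ℝ) ≤ u := by
    refine le_trans ?_ hu
    calc (w : ℝ) = w * 1 := (mul_one _).symm
      _ ≤ w * (w * δ) := mul_le_mul_of_nonneg_left h1 (by positivity)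
      _ = δ * (w : ℝ) ^ 2 := by ring
      _ ≤ δ * X := mul_le_mul_of_nonneg_left (h3.trans h2) hδ.le
  exact_mod_cast h5

/-- **The rough numbers in the class of a fixed `a` modulo the primes are asymptotically a Poisson process.** -/
theorem result (a N : ℕ) (ha : 1 ≤ a) (x ε δ : ℝ) (hx : 0 ≤ x) (hε : 0 < ε) (hδ : 0 < δ) (hδ1 : δ ≤ 1) :
    ∃ r w₀ : ℕ, ∀ w : ℕ, w₀ ≤ w → ∀ X : ℕ, w ^ r ≤ X → ∀ (D : ℕ) (I : Finset ℕ), 2 * a ∣ D → I ⊆ range N →
      N * D * M w ≤ x → ∀ lam : ℝ, lam = I.card * D * M w →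
      ∀ u Y : ℕ, δ * X ≤ u → δ * X ≤ Y → u + Y ≤ X → ∀ A : Finset ℕ,
      |(primeCount w a D I A u Y : ℝ) * Real.log X -
        Y * ∑ j ∈ A, Real.exp (-lam) * lam ^ j / j.factorial| ≤ ε * Y := by
  obtain ⟨e1, he1⟩ : ∃ e1 : ℝ, e1 = min (ε / 4) 1 := ⟨_, rfl⟩
  have he0 : 0 < e1 := by rw [he1]; positivity
  have hea : 4 * e1 ≤ ε := by
    have : e1 ≤ ε / 4 := by rw [he1]; exact min_le_left _ _
    linarith
  have heb : e1 ≤ 1 := by rw [he1]; exact min_le_right _ _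
  obtain ⟨r, y0, h⟩ := lawMa a ha (x * 2 ^ (2 * a)) e1 δ (by positivity) he0 heb hδ hδ1
    (fun w => ((N * (2 * a) : ℕ) : ℝ) * Mw w) (fun w => by positivity)
  obtain ⟨y4, hy4⟩ : ∃ y4 : ℕ, 1 / δ ≤ y4 := exists_nat_ge _
  refine ⟨r + 2, y0 + y4 + 2 * a + 2, ?_⟩
  intro w hw X hX D I hD hI hN lam hlam u Y hu hY huY A
  obtain ⟨d, rfl⟩ := hD
  have hwu := level_le δ hδ r w X u y4 hy4 (by omega) (by omega) hX hu
  have hBG : ∀ c ∈ I ×ˢ BG a, c.2 ∈ Icc 1 (2 * a) := by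
    intro c hc
    rw [mem_product] at hc
    exact BG_sub a hc.2
  have hsub : WS (2 * a) d (I ×ˢ BG a) ⊆ Icc 1 (N * (2 * a * d)) := by
    apply WS_sub
    intro c hc
    rw [mem_product]
    exact ⟨hI (mem_product.1 hc).1, hBG c hc⟩
  have hcardS : (I ×ˢ BG a).card ≤ N * (2 * a) := by
    rw [card_product]
    apply Nat.mul_le_mul
    · have := card_le_card hI
      rwa [card_range] at this
    · exact card_BG_le a
  have hV0 : 0 ≤ Vq (Qa a) w := Vq_nonneg _ w
  have hVle : Vq (Qa a) w ≤ 2 ^ (2 * a) * M w := by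
    have h1 : M w = cA a w * Vq (Qa a) w := by rw [M_eq, Vz_cA a w, Vq_QH_zero]
    have h2 := cA_ge a w ha
    rw [h1]
    calc Vq (Qa a) w = 2 ^ (2 * a) * ((1 / 2) ^ (2 * a) * Vq (Qa a) w) := by
          rw [← mul_assoc, ← mul_pow]
          norm_num
      _ ≤ 2 ^ (2 * a) * (cA a w * Vq (Qa a) w) := by
          apply mul_le_mul_of_nonneg_left _ (by positivity)
          exact mul_le_mul_of_nonneg_right h2 hV0
  have hlamx : ((N * (2 * a * d) : ℕ) : ℝ) * Vq (Qa a) w ≤ x * 2 ^ (2 * a) := by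
    have h1 : ((N * (2 * a * d) : ℕ) : ℝ) * Vq (Qa a) w ≤ ((N * (2 * a * d) : ℕ) : ℝ) * (2 ^ (2 * a) * M w) :=
      mul_le_mul_of_nonneg_left hVle (Nat.cast_nonneg _)
    refine h1.trans ?_
    have h2 : ((N * (2 * a * d) : ℕ) : ℝ) * (2 ^ (2 * a) * M w) = (N * ((2 * a * d : ℕ) : ℝ) * M w) * 2 ^ (2 * a) := by
      push_cast
      ring
    rw [h2]
    exact mul_le_mul_of_nonneg_right hN (by positivity)
  have hmain := h X w (by omega) ((Nat.pow_le_pow_right (by omega) (by omega)).trans hX) (N * (2 * a * d))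
    (WS (2 * a) d (I ×ˢ BG a)) hsub (fun k hk => ((mem_WS a d ha I k).1 hk).2) hlamx (by
      intro w' m
      exact WS_win (Qa a) 1 (perB_Qa a) (2 * a) d (by omega) (fun p _ hpa m hq => hq.1 hpa) (I ×ˢ BG a) hBG
        (N * (2 * a)) hcardS w' m) u Y hu hY huY A
  rw [card_WS a d w ha (by omega) I] at hmain
  rw [count_eq w a d ha (by omega) I A u Y hwu, hlam]
  refine hmain.trans ?_
  exact mul_le_mul_of_nonneg_right hea (Nat.cast_nonneg _)

end Pool.Agent.Results.MP_42948a_nt.FixedClassPoisson
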