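import Pool.Agent.U847.BT
import Pool.Agent.N625.PT.K
import Pool.Agent.R501.LP1

/-!
# Least primes in almost all classes, for all the multiples of moduli given by a context-free language

The moduli are all the multiples `h q`, `h ≤ k ^ J`, of all the integers `q` near `c + κ v`, for almost all the integers `v`
whose `k` digits form a correctly nested word (several kinds of brackets and neutral digits). Such a set can contain as few
as `N ^ ε` integers below `N`, and it is not automatic.

From Mathlib: `Nat.totient`: Euler's function.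

Method: exponential sums over the correctly nested words by a stack machine, a harmonic function of the stack and a
cancellation between the two ways to return to a stack in two steps (starting files, `Pool.Agent.N625.DY`). New here: a
frequency `θ` at which the exponential sum over the multiples `h v` is large differs little from a fraction with a small
denominator except at `O(log k)` of the digits, for all `h ≤ k ^ J` (`Pool.Agent.U847.TG`, `Pool.Agent.U847.TI`). The passage
from such a description of the large frequencies to the variance of the primes in the classes, and from this to the least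
primes, is from the starting files (`Pool.Agent.N625.PT.t_var`, `Pool.Agent.R501.LP`).
-/

set_option autoImplicit false

namespace Pool.Agent.Results.MP_42948a_nt.NestedWordModuli

open Finset

open Classical in
/-- The number of the reduced residue classes `a` modulo `d` whose least prime exceeds `x`. -/
noncomputable def lateClasses (x : ℝ) (d : ℕ) : ℕ :=
  ((range d).filter (fun a => Nat.Coprime a d ∧ ∀ p : ℕ, p.Prime → (p : ℝ) ≤ x → ¬ p % d = a)).card

/-- For all real `x` with `d ≤ x ≤ d log ^ T d` the number of the reduced residue classes modulo `d` whose least prime exceeds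
`x` is at most `(1 + ε) φ(d) / (1 + lam)`, where `x = lam φ(d) log d`. -/
def Good (ε : ℝ) (T d : ℕ) : Prop :=
  ∀ x : ℝ, (d : ℝ) ≤ x → x ≤ d * Real.log d ^ T →
    (lateClasses x d : ℝ) * (1 + x / ((Nat.totient d : ℝ) * Real.log d)) ≤ (1 + ε) * (Nat.totient d : ℝ)

/-- `P` is a set of pairs of an opening digit and a closing digit which match each other, `E` is a set of neutral
digits; the digits are smaller than `b`, no digit plays two of the three roles, and there is at least one pair.
(An opening digit can match several closing digits, and conversely.) -/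
structure Alphabet (b : ℕ) (P : Finset (ℕ × ℕ)) (E : Finset ℕ) : Prop where
  lt : ∀ p ∈ P, p.1 < b ∧ p.2 < b
  ne : ∀ p ∈ P, ∀ p' ∈ P, p.1 ≠ p'.2
  neutral : ∀ a ∈ E, a < b ∧ ∀ p ∈ P, a ≠ p.1 ∧ a ≠ p.2
  nonempty : P.Nonempty

/-- The correctly nested words: the empty word; a neutral digit followed by a correctly nested word; and `o u c w`,
where `u` and `w` are correctly nested words and the opening digit `o` matches the closing digit `c`. -/
inductive Balanced (P : Finset (ℕ × ℕ)) (E : Finset ℕ) : List ℕ → Prop
  | nil : Balanced P E []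
  | neutral (a : ℕ) (w : List ℕ) : a ∈ E → Balanced P E w → Balanced P E (a :: w)
  | pair (o c : ℕ) (u w : List ℕ) : (o, c) ∈ P → Balanced P E u → Balanced P E w → Balanced P E (o :: (u ++ c :: w))

open Classical in
/-- The integers `v < b ^ k` whose `k` digits in base `b`, from the most significant to the least significant one (the
digit number `i`, `0 ≤ i < k`, from the left is `v / b ^ (k - 1 - i) % b`), form a correctly nested word. -/
noncomputable def brackets (b : ℕ) (P : Finset (ℕ × ℕ)) (E : Finset ℕ) (k : ℕ) : Finset ℕ :=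
  (range (b ^ k)).filter fun v => Balanced P E ((List.range k).map fun i => v / b ^ (k - 1 - i) % b)

lemma bal_iff (P : Finset (ℕ × ℕ)) (E : Finset ℕ) (w : List ℕ) : Balanced P E w ↔ Pool.Agent.N625.DY.Balanced P E w := by
  constructor
  · intro h
    induction h with
    | nil => exact .nil
    | neutral a w h1 _ ih => exact .neutral a w h1 ih
    | pair o c u w h1 _ _ ih1 ih2 => exact .pair o c u w h1 ih1 ih2
  · intro h
    induction h with
    | nil => exact .nil
    | neutral a w h1 _ ih => exact .neutral a w h1 ih
    | pair o c u w h1 _ _ ih1 ih2 => exact .pair o c u w h1 ih1 ih2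

lemma brackets_eq (b : ℕ) (P : Finset (ℕ × ℕ)) (E : Finset ℕ) (k : ℕ) :
    brackets b P E k = Pool.Agent.N625.DY.brackets b P E k := by
  classical
  unfold brackets Pool.Agent.N625.DY.brackets Pool.Agent.N625.DY.word
  ext v
  rw [mem_filter, mem_filter, bal_iff]

lemma good_of (ε : ℝ) (hε : 0 < ε) (hε1 : ε ≤ 1) (T : ℕ) : ∃ Q₀ : ℕ, ∀ Q : ℕ, Q₀ ≤ Q → (∀ x : ℝ, (Q : ℝ) ≤ x → x ≤ Q * Real.log Q ^ T →
    |Pool.Agent.TH894.PV.G x Q - x * Real.log Q| ≤ ε / 4 * (x * Real.log Q)) → Good ε T Q := by
  obtain ⟨Q₀, h⟩ := Pool.Agent.R501.LP.lpg_of_var T ε hε hε1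
  refine ⟨Q₀ + 2, fun Q hQ hvar x hx1 hx2 => ?_⟩
  exact ((Pool.Agent.R501.LP.lpg_iff ε T Q (by omega)).1 (h Q (by omega) hvar) x hx1 hx2).1

open Classical in
/-- **The least primes in almost all classes, for all the multiples of the moduli given by nested words.** Let the matching
pairs `P` of digits and the neutral digits `E` in base `b`, and `κ ≠ 0`, `B`, `J`, `W`, `T`, `U` and `0 < ε ≤ 1` be fixed, let
`k` be large and let `c` be an integer with `|c| ≤ B b ^ k`. Then for all the integers `v` whose `k` digits form a correctly
nested word, with the exception of a proportion of at most `1 / k ^ U` of them, ALL the integers `q ≥ 1` at a distance of at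
most `k ^ W` from `c + κ v` and ALL `h` with `1 ≤ h ≤ k ^ J` have the following property: for all real
`x = lam φ(d) log d` with `d ≤ x ≤ d log ^ T d`, where `d = h q`, all but at most `(1 + ε) φ(d) / (1 + lam)` of the reduced
residue classes modulo `d` contain a prime `≤ x`. -/
theorem result (b : ℕ) (P : Finset (ℕ × ℕ)) (E : Finset ℕ) (hA : Alphabet b P E) (κ : ℤ) (hκ : κ ≠ 0)
    (B J W T U : ℕ) (ε : ℝ) (hε : 0 < ε) (hε1 : ε ≤ 1) :
    ∃ k₀ : ℕ, ∀ k : ℕ, k₀ ≤ k → ∀ c : ℤ, |c| ≤ B * (b : ℤ) ^ k →
      (((brackets b P E k).filter fun v : ℕ => ¬ ∀ q : ℕ, 1 ≤ q → |(q : ℤ) - (c + κ * v)| ≤ (k : ℤ) ^ W →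
        ∀ h : ℕ, 1 ≤ h → h ≤ k ^ J → Good ε T (h * q)).card : ℝ) ≤ (brackets b P E k).card / (k : ℝ) ^ U := by
  have hA' : Pool.Agent.N625.DY.Alphabet b P E := ⟨hA.lt, hA.ne, hA.neutral, hA.nonempty⟩
  obtain ⟨Q₀, h0⟩ := good_of ε hε hε1 T
  obtain ⟨k₀, hmain⟩ := Pool.Agent.N625.PT.t_var
    (Pool.Agent.U847.TI.br_tcls hA' κ hκ) B J W T U (ε / 4) (by positivity) (by linarith) (Good ε T) Q₀ h0
  refine ⟨k₀, fun k hk c hc => ?_⟩
  simp only [brackets_eq]
  exact Pool.Agent.U847.BT.br_num hA' _ (fun p hp => hmain k hk p hp c hc)

end Pool.Agent.Results.MP_42948a_nt.NestedWordModuli
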