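import Pool.Agent.U308.TL.HooleyM
import Pool.Agent.R501.LP1

/-!
# Least primes in almost all classes, for all the multiples of all the moduli near almost all very smooth numbers

Nothing is used besides Mathlib in the statement.

Method (helper308). For the least primes `p(a, b)` of MP_5b0a7e_nt the starting file `Pool.Agent.Results.MP_5b0a7e_nt.SmoothModuli`
treats the moduli (not their multiples) near almost all `y`-smooth numbers with `y ≥ log ^ (2 + δ) N`. Below `log ^ 2 N` the
exponential sum over the integers composed of primes from `P` cannot be bounded in the same way. New here is a weight `w(v)`, the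
number of the representations `v = m₁ m₂ u`, where `m₁` and `m₂` are products of `h` different primes from one dyadic class of `P`
with more elements than the square root of the primes, and `u` is composed of primes from `P`: the weighted exponential sum is
small except near few rational numbers with small denominators (`Pool.Agent.U308.SH.chain`, `Pool.Agent.U308.SH.bilin`,
`Pool.Agent.U308.SG.exp_rr`), and `w(v)` is at least `1 / log N` of its mean value for almost all `v`
(`Pool.Agent.U308.SG.structB`, `Pool.Agent.U308.SG.dom2`), so that a property which holds with the weight `w` for almost all `v`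
holds for almost all `v` (`Pool.Agent.U308.TL.sm_tlaw2`, `dom_le`). The argument for the variance over random moduli
(`Pool.Agent.Y958.RM.main`) and the passage from the variance to the least primes (`Pool.Agent.R501.LP.lpg_of_var`) are from the
starting files.
-/

set_option autoImplicit false

namespace Pool.Agent.Results.MP_42948a_nt.VerySmoothModuli

open Finset

open Classical in
/-- The number of the reduced residue classes `a` modulo `d` whose least prime exceeds `x`. -/
noncomputable def lateClasses (x : ℝ) (d : ℕ) : ℕ :=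
  ((range d).filter (fun a => Nat.Coprime a d ∧ ∀ p : ℕ, p.Prime → (p : ℝ) ≤ x → ¬ p % d = a)).card

/-- For all real `x` with `d ≤ x ≤ d log ^ T d` the number of the reduced residue classes modulo `d` whose least prime exceeds
`x` is at most `(1 + ε) φ(d) / (1 + lam)`, where `x = lam φ(d) log d`. (For `x = d log ^ T d` these are at most
`(1 + ε) φ(d) / log ^ (T - 1) d` classes: all the other classes `a` have `p(d, a) ≤ d log ^ T d`.) -/
def Good (ε : ℝ) (T d : ℕ) : Prop :=
  ∀ x : ℝ, (d : ℝ) ≤ x → x ≤ d * Real.log d ^ T →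
    (lateClasses x d : ℝ) * (1 + x / ((Nat.totient d : ℝ) * Real.log d)) ≤ (1 + ε) * (Nat.totient d : ℝ)

/-- The integers `1 ≤ v ≤ N` all of whose prime factors belong to `P`. -/
def composedOf (P : Finset ℕ) (N : ℕ) : Finset ℕ := (Icc 1 N).filter fun v => v.primeFactors ⊆ P

/-- The `y`-smooth integers `1 ≤ v ≤ N`: the integers all of whose prime factors are at most `y`. -/
def smooth (y N : ℕ) : Finset ℕ := (Icc 1 N).filter fun v => ∀ p ∈ v.primeFactors, p ≤ y

lemma good_of (ε : ℝ) (hε : 0 < ε) (hε1 : ε ≤ 1) (T : ℕ) : ∃ Q₀ : ℕ, ∀ Q : ℕ, Q₀ ≤ Q → (∀ x : ℝ, (Q : ℝ) ≤ x → x ≤ Q * Real.log Q ^ T →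
    |Pool.Agent.TH894.PV.G x Q - x * Real.log Q| ≤ ε / 4 * (x * Real.log Q)) → Good ε T Q := by
  obtain ⟨Q₀, h⟩ := Pool.Agent.R501.LP.lpg_of_var T ε hε hε1
  refine ⟨Q₀ + 2, fun Q hQ hvar x hx1 hx2 => ?_⟩
  exact ((Pool.Agent.R501.LP.lpg_iff ε T Q (by omega)).1 (h Q (by omega) hvar) x hx1 hx2).1

open Classical in
/-- Let `A`, `J`, `T`, `U`, `K`, `B`, the integer `κ ≠ 0`, `0 < ε ≤ 1` and `δ > 0` be fixed, let `N` be large, `y ≤ log ^ K N`,
and let `c` be an arbitrary integer with `|c| ≤ B N`.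

(1) Let `P` be an arbitrary set of primes which are at most `y`, with at least `y ^ (1 / 2 + δ)` and at least
`log ^ (1 + δ) N` elements. Then for all the integers `v ≤ N` composed of primes from `P`, up to a proportion of at most
`1 / log ^ U N` of them, ALL the multiples `d = h q`, `1 ≤ h ≤ log ^ J N`, of ALL the moduli `q > 0` with
`|q - (c + κ v)| ≤ log ^ A N` are good: for all real `x = lam φ(d) log d` with `d ≤ x ≤ d log ^ T d`, all but at most
`(1 + ε) φ(d) / (1 + lam)` of the reduced classes modulo `d` contain a prime `≤ x`. (There can be fewer than `N ^ δ` such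
integers `v`.)

(2) In particular this holds for all the `y`-smooth integers `v ≤ N`, up to a proportion of at most `1 / log ^ U N` of them,
if `y ≥ log ^ (1 + δ) N`. (For `c = 0`, `κ = 1` the moduli are all the multiples of the smooth numbers and of all their
neighbours.) -/
theorem result (A J T U K B : ℕ) (κ : ℤ) (hκ : κ ≠ 0) (ε : ℝ) (hε : 0 < ε) (hε1 : ε ≤ 1) (δ : ℝ) (hδ : 0 < δ) :
    ∃ N₀ : ℕ, ∀ N, N₀ ≤ N → ∀ y : ℕ, (y : ℝ) ≤ Real.log N ^ K → ∀ c : ℤ, |c| ≤ B * N →
      (∀ P : Finset ℕ, (∀ p ∈ P, p.Prime ∧ p ≤ y) → (y : ℝ) ^ (1 / 2 + δ) ≤ P.card → Real.log N ^ (1 + δ) ≤ P.card →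
        (((composedOf P N).filter fun v : ℕ => ∃ q h : ℕ, 0 < q ∧ |((q - (c + κ * v) : ℤ) : ℝ)| ≤ Real.log N ^ A ∧
          1 ≤ h ∧ (h : ℝ) ≤ Real.log N ^ J ∧ ¬ Good ε T (h * q)).card : ℝ) ≤ ((composedOf P N).card : ℝ) / Real.log N ^ U) ∧
      (Real.log N ^ (1 + δ) ≤ y →
        (((smooth y N).filter fun v : ℕ => ∃ q h : ℕ, 0 < q ∧ |((q - (c + κ * v) : ℤ) : ℝ)| ≤ Real.log N ^ A ∧
          1 ≤ h ∧ (h : ℝ) ≤ Real.log N ^ J ∧ ¬ Good ε T (h * q)).card : ℝ) ≤ ((smooth y N).card : ℝ) / Real.log N ^ U) := by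
  obtain ⟨N₀, h0⟩ := Pool.Agent.U308.TL.both2 δ hδ K U _ (Pool.Agent.U308.TL.sm_varM2 κ hκ K B A J T U (ε / 4) (by positivity)
    (by linarith) (Good ε T) (good_of ε hε hε1 T))
  refine ⟨N₀, fun N hN y hy' c hc => ?_⟩
  refine h0 N hN y hy' (fun v : ℕ => ∃ q h : ℕ, 0 < q ∧ |((q - (c + κ * v) : ℤ) : ℝ)| ≤ Real.log N ^ A ∧
          1 ≤ h ∧ (h : ℝ) ≤ Real.log N ^ J ∧ ¬ Good ε T (h * q)) (fun v => inferInstance) ⟨c, hc, fun v hv => ?_⟩
  obtain ⟨q, h, hq0, hq, hh1, hh2, hbad⟩ := hv
  have e0 : c + κ * (v : ℤ) + ((q : ℤ) - (c + κ * v)) = q := by ring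
  refine ⟨h, hh1, hh2, (q : ℤ) - (c + κ * v), hq, by rw [e0]; exact_mod_cast hq0, ?_⟩
  rw [e0]
  have e1 : (h : ℤ) * (q : ℤ) = ((h * q : ℕ) : ℤ) := by push_cast; ring
  rw [e1, Int.toNat_natCast]
  exact hbad

end Pool.Agent.Results.MP_42948a_nt.VerySmoothModuli
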